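import Mathlib

/-!
# The dual irregularity strength of finite projective planes is not linear in the order
-/

set_option autoImplicit false

namespace Pool.Agent.Results.MP_aa9284_co.NotLinear

open Configuration Finset
open scoped Classical LinearAlgebra.Projectivization

/-- The sum of the labels on the line `l`. -/
noncomputable def lineSum {P L : Type} [Membership P L] [Fintype P] (w : P → ℕ) (l : L) : ℕ :=
  ∑ x : P with x ∈ l, w x

/-- A labelling of the points by positive integers is line-irregular if distinct lines have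
distinct sums. -/
def IsLineIrregular (P L : Type) [Membership P L] [Fintype P] (w : P → ℕ) : Prop :=
  (∀ x, 1 ≤ w x) ∧ Function.Injective (fun l : L => lineSum w l)

/-- The dual irregularity strength `s*`: the least `k` for which there is a line-irregular
labelling with all labels at most `k`. -/
noncomputable def dualStrength (P L : Type) [Membership P L] [Fintype P] : ℕ :=
  sInf {k : ℕ | ∃ w : P → ℕ, IsLineIrregular P L w ∧ ∀ x, w x ≤ k}

section plane

variable {P L : Type} [Membership P L] [Fintype P] [Fintype L] [ProjectivePlane P L]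

theorem count_lines (x y : P) :
    (((univ.filter (fun l : L => x ∈ l ∧ y ∈ l)).card : ℕ) : ℤ) =
      1 + if x = y then (ProjectivePlane.order P L : ℤ) else 0 := by
  split_ifs with h
  · subst h
    have h1 := ProjectivePlane.lineCount_eq (P := P) (L := L) x
    rw [Configuration.lineCount, Nat.card_eq_fintype_card, Fintype.card_subtype] at h1
    simp only [and_self]
    rw [h1]; push_cast; ring
  · obtain ⟨l, hl, hu⟩ := HasLines.existsUnique_line P L x y h
    have : (univ.filter (fun l : L => x ∈ l ∧ y ∈ l)) = {l} := by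
      ext m
      simp only [mem_filter, mem_univ, true_and, mem_singleton]
      exact ⟨fun hm => hu m hm, fun hm => hm ▸ hl⟩
    rw [this]; simp

omit [Fintype L] [ProjectivePlane P L] in
theorem lineSum_eq (w : P → ℕ) (l : L) :
    (lineSum w l : ℤ) = ∑ x : P, (if x ∈ l then (w x : ℤ) else 0) := by
  unfold lineSum
  push_cast
  rw [Finset.sum_filter]

theorem sum_sq (w : P → ℕ) :
    ∑ l : L, (lineSum w l : ℤ) ^ 2 =
      (ProjectivePlane.order P L : ℤ) * ∑ x, (w x : ℤ) ^ 2 + (∑ x, (w x : ℤ)) ^ 2 := by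
  have h1 : ∀ l : L, (lineSum w l : ℤ) ^ 2 =
      ∑ x : P, ∑ y : P, (w x : ℤ) * (w y : ℤ) * (if x ∈ l ∧ y ∈ l then 1 else 0) := by
    intro l
    rw [lineSum_eq, sq, Finset.sum_mul_sum]
    refine Finset.sum_congr rfl fun x _ => Finset.sum_congr rfl fun y _ => ?_
    by_cases hx : x ∈ l <;> by_cases hy : y ∈ l <;> simp [hx, hy]
  simp_rw [h1]
  rw [Finset.sum_comm]
  have h2 : ∀ x : P, ∑ l : L, ∑ y : P, (w x : ℤ) * (w y : ℤ) * (if x ∈ l ∧ y ∈ l then 1 else 0) =
      ∑ y : P, (w x : ℤ) * (w y : ℤ) * (1 + if x = y then (ProjectivePlane.order P L : ℤ) else 0) := by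
    intro x
    rw [Finset.sum_comm]
    refine Finset.sum_congr rfl fun y _ => ?_
    rw [← Finset.mul_sum, ← count_lines (L := L) x y, Finset.card_filter]
    push_cast
    rfl
  simp_rw [h2]
  have h3 : ∀ x : P, ∑ y : P, (w x : ℤ) * (w y : ℤ) *
      (1 + if x = y then (ProjectivePlane.order P L : ℤ) else 0) =
      (w x : ℤ) * ∑ y : P, (w y : ℤ) + (ProjectivePlane.order P L : ℤ) * (w x : ℤ) ^ 2 := by
    intro x
    simp_rw [mul_add, mul_one, Finset.sum_add_distrib]
    rw [← Finset.mul_sum]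
    congr 1
    simp only [mul_ite, mul_zero]
    rw [Finset.sum_ite_eq]
    simp
    ring
  simp_rw [h3]
  rw [Finset.sum_add_distrib, ← Finset.sum_mul, ← Finset.mul_sum]
  ring

theorem sum_lin (w : P → ℕ) :
    ∑ l : L, (lineSum w l : ℤ) =
      ((ProjectivePlane.order P L : ℤ) + 1) * ∑ x, (w x : ℤ) := by
  simp_rw [lineSum_eq]
  rw [Finset.sum_comm, Finset.mul_sum]
  refine Finset.sum_congr rfl fun x _ => ?_
  have h := count_lines (L := L) x x
  simp only [and_self, if_true] at h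
  rw [← Finset.sum_filter, Finset.sum_const, nsmul_eq_mul, h]
  ring

theorem sum_pairs (w : P → ℕ) :
    ∑ l : L, ∑ m : L, ((lineSum w m : ℤ) - lineSum w l) ^ 2 ≤
      2 * (Fintype.card L : ℤ) * (ProjectivePlane.order P L : ℤ) * ∑ x, (w x : ℤ) ^ 2 := by
  have h : ∑ l : L, ∑ m : L, ((lineSum w m : ℤ) - lineSum w l) ^ 2 =
      2 * (Fintype.card L : ℤ) * (∑ l : L, (lineSum w l : ℤ) ^ 2)
        - 2 * (∑ l : L, (lineSum w l : ℤ)) ^ 2 := by
    have : ∀ l m : L, ((lineSum w m : ℤ) - lineSum w l) ^ 2 =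
        (lineSum w m : ℤ) ^ 2 + (lineSum w l : ℤ) ^ 2 - 2 * ((lineSum w l : ℤ) * lineSum w m) := by
      intro l m; ring
    simp_rw [this, Finset.sum_sub_distrib, Finset.sum_add_distrib]
    simp_rw [← Finset.mul_sum]
    simp only [Finset.sum_const, Finset.card_univ, nsmul_eq_mul]
    rw [← Finset.sum_mul, ← Finset.mul_sum]
    ring
  rw [h, sum_sq, sum_lin, ProjectivePlane.card_lines P L]
  push_cast
  have := sq_nonneg (∑ x, (w x : ℤ))
  have hq : (0 : ℤ) ≤ (ProjectivePlane.order P L : ℤ) := by positivity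
  nlinarith [mul_nonneg hq this]

theorem lower_one {w : P → ℕ} (hw : Function.Injective (fun l : L => lineSum w l)) (l : L)
    (m : ℕ) :
    ((Fintype.card L : ℤ) - (2 * m + 1)) * ((m : ℤ) + 1) ^ 2 ≤
      ∑ k : L, ((lineSum w k : ℤ) - lineSum w l) ^ 2 := by
  set B := univ.filter (fun k : L => |(lineSum w k : ℤ) - lineSum w l| ≤ m) with hB
  have hcard : B.card ≤ 2 * m + 1 := by
    have h1 : B.card = (B.image (fun k : L => (lineSum w k : ℤ))).card := by
      rw [Finset.card_image_of_injective]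
      intro a b hab
      apply hw
      have hab' : (lineSum w a : ℤ) = lineSum w b := hab
      show lineSum w a = lineSum w b
      exact_mod_cast hab'
    have h2 : B.image (fun k : L => (lineSum w k : ℤ)) ⊆
        Finset.Icc ((lineSum w l : ℤ) - m) ((lineSum w l : ℤ) + m) := by
      intro z hz
      rw [Finset.mem_image] at hz
      obtain ⟨k, hk, rfl⟩ := hz
      rw [hB, Finset.mem_filter, abs_le] at hk
      rw [Finset.mem_Icc]
      constructor <;> linarith [hk.2.1, hk.2.2]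
    have h3 := Finset.card_le_card h2
    rw [Int.card_Icc] at h3
    rw [h1]
    have : ((lineSum w l : ℤ) + m + 1 - ((lineSum w l : ℤ) - m)).toNat = 2 * m + 1 := by
      have : ((lineSum w l : ℤ) + m + 1 - ((lineSum w l : ℤ) - m)) = ((2 * m + 1 : ℕ) : ℤ) := by
        push_cast; ring
      rw [this, Int.toNat_natCast]
    omega
  have h4 : (Bᶜ).card = Fintype.card L - B.card := Finset.card_compl B
  have hBL : B.card ≤ Fintype.card L := Finset.card_le_univ B
  calc ((Fintype.card L : ℤ) - (2 * m + 1)) * ((m : ℤ) + 1) ^ 2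
      ≤ ((Bᶜ).card : ℤ) * ((m : ℤ) + 1) ^ 2 := by
        apply mul_le_mul_of_nonneg_right _ (by positivity)
        rw [h4]
        push_cast [hBL]
        have : (B.card : ℤ) ≤ 2 * m + 1 := by exact_mod_cast hcard
        linarith
    _ = ∑ k ∈ Bᶜ, ((m : ℤ) + 1) ^ 2 := by rw [Finset.sum_const, nsmul_eq_mul]
    _ ≤ ∑ k ∈ Bᶜ, ((lineSum w k : ℤ) - lineSum w l) ^ 2 := by
        refine Finset.sum_le_sum fun k hk => ?_
        rw [Finset.mem_compl, hB, Finset.mem_filter] at hk
        have hk' : (m : ℤ) + 1 ≤ |(lineSum w k : ℤ) - lineSum w l| := by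
          by_contra hcon
          exact hk ⟨Finset.mem_univ _, by omega⟩
        rw [← sq_abs ((lineSum w k : ℤ) - lineSum w l)]
        exact pow_le_pow_left₀ (by positivity) hk' 2
    _ ≤ ∑ k : L, ((lineSum w k : ℤ) - lineSum w l) ^ 2 :=
        Finset.sum_le_sum_of_subset_of_nonneg (Finset.subset_univ _)
          (fun _ _ _ => sq_nonneg _)

/-- The quantitative bound: `q³ ≤ 128 k²` if there is a line-irregular labelling with labels at
most `k`. -/
theorem bound {w : P → ℕ} (hw : IsLineIrregular P L w) {k : ℕ} (hk : ∀ x, w x ≤ k) :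
    (ProjectivePlane.order P L) ^ 3 ≤ 128 * k ^ 2 := by
  set q := ProjectivePlane.order P L with hq
  have hq1 : 1 < q := ProjectivePlane.one_lt_order P L
  have hcL : Fintype.card L = q ^ 2 + q + 1 := ProjectivePlane.card_lines P L
  have hcP : Fintype.card P = q ^ 2 + q + 1 := ProjectivePlane.card_points P L
  set m := q ^ 2 / 4 with hm
  have hm1 : 4 * m ≤ q ^ 2 := Nat.mul_div_le _ _
  have hm2 : q ^ 2 < 4 * (m + 1) := by omega
  have hup := sum_pairs (L := L) w
  have hlow : ((Fintype.card L : ℤ)) * (((Fintype.card L : ℤ) - (2 * m + 1)) * ((m : ℤ) + 1) ^ 2) ≤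
      ∑ l : L, ∑ m : L, ((lineSum w m : ℤ) - lineSum w l) ^ 2 := by
    calc ((Fintype.card L : ℤ)) * (((Fintype.card L : ℤ) - (2 * m + 1)) * ((m : ℤ) + 1) ^ 2)
        = ∑ l : L, (((Fintype.card L : ℤ) - (2 * m + 1)) * ((m : ℤ) + 1) ^ 2) := by
          rw [Finset.sum_const, Finset.card_univ, nsmul_eq_mul]
      _ ≤ _ := Finset.sum_le_sum fun l _ => lower_one hw.2 l m
  have hsq : ∑ x : P, (w x : ℤ) ^ 2 ≤ (Fintype.card P : ℤ) * (k : ℤ) ^ 2 := by
    calc ∑ x : P, (w x : ℤ) ^ 2 ≤ ∑ x : P, (k : ℤ) ^ 2 := by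
          refine Finset.sum_le_sum fun x _ => ?_
          have : (w x : ℤ) ≤ k := by exact_mod_cast hk x
          exact pow_le_pow_left₀ (by positivity) this 2
      _ = _ := by rw [Finset.sum_const, Finset.card_univ, nsmul_eq_mul]
  rw [hcL] at hup hlow
  rw [hcP] at hsq
  push_cast at hup hlow hsq
  rw [← hq] at hup
  have hqz : (1 : ℤ) < q := by exact_mod_cast hq1
  have hm1z : 4 * (m : ℤ) ≤ (q : ℤ) ^ 2 := by exact_mod_cast hm1
  have hm2z : (q : ℤ) ^ 2 < 4 * ((m : ℤ) + 1) := by exact_mod_cast hm2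
  set Q : ℤ := (q : ℤ) with hQ
  set N : ℤ := Q ^ 2 + Q + 1 with hN
  have hNpos : 0 < N := by positivity
  have h5 : N * ((N - (2 * m + 1)) * ((m : ℤ) + 1) ^ 2) ≤ 2 * N * Q * (N * (k : ℤ) ^ 2) := by
    refine hlow.trans (hup.trans ?_)
    have : (0 : ℤ) ≤ 2 * N * Q := by positivity
    exact mul_le_mul_of_nonneg_left hsq this
  have h6 : (N - (2 * m + 1)) * ((m : ℤ) + 1) ^ 2 ≤ 2 * Q * (N * (k : ℤ) ^ 2) := by
    have : N * ((N - (2 * m + 1)) * ((m : ℤ) + 1) ^ 2) ≤ N * (2 * Q * (N * (k : ℤ) ^ 2)) := by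
      calc _ ≤ _ := h5
        _ = _ := by ring
    exact le_of_mul_le_mul_left this hNpos
  have h7 : Q ^ 2 / 2 * 1 ≤ Q ^ 2 := by
    have : 0 ≤ Q ^ 2 := by positivity
    omega
  have h8 : Q ^ 2 ≤ 2 * (N - (2 * m + 1)) := by
    rw [hN]; nlinarith
  have h9 : Q ^ 4 ≤ 16 * ((m : ℤ) + 1) ^ 2 := by
    have : Q ^ 2 ≤ 4 * ((m : ℤ) + 1) := hm2z.le
    have h0 : 0 ≤ Q ^ 2 := by positivity
    calc Q ^ 4 = (Q ^ 2) ^ 2 := by ring
      _ ≤ (4 * ((m : ℤ) + 1)) ^ 2 := pow_le_pow_left₀ h0 this 2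
      _ = _ := by ring
  have h10 : N ≤ 2 * Q ^ 2 := by rw [hN]; nlinarith
  have h11 : Q ^ 2 * Q ^ 4 ≤ 32 * ((N - (2 * m + 1)) * ((m : ℤ) + 1) ^ 2) := by
    have h0 : 0 ≤ Q ^ 4 := by positivity
    have h0' : 0 ≤ 2 * (N - (2 * m + 1)) := by
      have : 0 ≤ Q ^ 2 := by positivity
      linarith
    calc Q ^ 2 * Q ^ 4 ≤ (2 * (N - (2 * m + 1))) * (16 * ((m : ℤ) + 1) ^ 2) :=
          mul_le_mul h8 h9 h0 h0'
      _ = _ := by ring
  have h12 : 2 * Q * (N * (k : ℤ) ^ 2) ≤ 2 * Q * (2 * Q ^ 2 * (k : ℤ) ^ 2) := by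
    have : 0 ≤ (k : ℤ) ^ 2 := by positivity
    have h' : N * (k : ℤ) ^ 2 ≤ 2 * Q ^ 2 * (k : ℤ) ^ 2 := mul_le_mul_of_nonneg_right h10 this
    exact mul_le_mul_of_nonneg_left h' (by positivity)
  have h13 : Q ^ 3 * Q ^ 3 ≤ Q ^ 3 * (128 * (k : ℤ) ^ 2) := by
    calc Q ^ 3 * Q ^ 3 = Q ^ 2 * Q ^ 4 := by ring
      _ ≤ 32 * ((N - (2 * m + 1)) * ((m : ℤ) + 1) ^ 2) := h11
      _ ≤ 32 * (2 * Q * (2 * Q ^ 2 * (k : ℤ) ^ 2)) := by linarith
      _ = _ := by ring
  have h14 : Q ^ 3 ≤ 128 * (k : ℤ) ^ 2 := le_of_mul_le_mul_left h13 (by positivity)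
  rw [hQ] at h14
  exact_mod_cast h14

/-- Line-irregular labellings exist. -/
theorem exists_irregular : ∃ k : ℕ, ∃ w : P → ℕ, IsLineIrregular P L w ∧ ∀ x, w x ≤ k := by
  let e := Fintype.equivFin P
  refine ⟨∑ x, 2 ^ (e x : ℕ), fun x => 2 ^ (e x : ℕ), ⟨fun x => Nat.one_le_two_pow, ?_⟩, ?_⟩
  · intro l m hlm
    simp only [lineSum] at hlm
    have h1 : ∀ l : L, ∑ x : P with x ∈ l, 2 ^ (e x : ℕ) =
        ∑ i ∈ (univ.filter (fun x : P => x ∈ l)).image (fun x => (e x : ℕ)), 2 ^ i := by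
      intro l
      rw [Finset.sum_image]
      intro a _ b _ hab
      exact e.injective (Fin.ext hab)
    rw [h1 l, h1 m] at hlm
    have h2 := Finset.geomSum_injective (le_refl 2) hlm
    have h3 : (univ.filter (fun x : P => x ∈ l)) = (univ.filter (fun x : P => x ∈ m)) := by
      refine Finset.image_injective ?_ h2
      intro a b hab
      exact e.injective (Fin.ext hab)
    by_contra hne
    -- a line has at least three points, so two lines with the same points are equal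
    have h4 := ProjectivePlane.two_lt_pointCount P l
    rw [Configuration.pointCount, Nat.card_eq_fintype_card, Fintype.card_subtype] at h4
    obtain ⟨a, ha, b, hb, hab⟩ := Finset.one_lt_card.1 (lt_trans one_lt_two h4)
    have ha' := ha
    have hb' := hb
    rw [h3] at ha' hb'
    simp only [mem_filter, mem_univ, true_and] at ha hb ha' hb'
    rcases Nondegenerate.eq_or_eq ha hb ha' hb' with h | h
    · exact hab h
    · exact hne h
  · intro x
    exact Finset.single_le_sum (f := fun x => 2 ^ (e x : ℕ)) (fun _ _ => Nat.zero_le _)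
      (Finset.mem_univ x)

theorem strength_bound :
    (ProjectivePlane.order P L) ^ 3 ≤ 128 * (dualStrength P L) ^ 2 := by
  have h := Nat.sInf_mem (s := {k : ℕ | ∃ w : P → ℕ, IsLineIrregular P L w ∧ ∀ x, w x ≤ k})
    (exists_irregular (P := P) (L := L))
  obtain ⟨w, hw, hk⟩ := h
  exact bound hw hk

end plane

/-- There is no absolute constant `c` such that `s*(P) ≤ c q` for every finite projective plane
`P` of order `q`. -/
theorem result :
    ¬ ∃ c : ℝ, ∀ (P L : Type) [Membership P L] [Fintype P] [Fintype L] [ProjectivePlane P L],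
      (dualStrength P L : ℝ) ≤ c * (ProjectivePlane.order P L : ℝ) := by
  rintro ⟨c, hc⟩
  obtain ⟨N, hN⟩ := exists_nat_gt (128 * c ^ 2)
  obtain ⟨p, hp, hpp⟩ := Nat.exists_infinite_primes N
  have : Fact p.Prime := ⟨hpp⟩
  let _ : Fintype (ℙ (ZMod p) (Fin 3 → ZMod p)) := Fintype.ofFinite _
  have hord : ProjectivePlane.order (ℙ (ZMod p) (Fin 3 → ZMod p)) (ℙ (ZMod p) (Fin 3 → ZMod p))
      = p := by
    have h1 := ProjectivePlane.card_points (ℙ (ZMod p) (Fin 3 → ZMod p))
      (ℙ (ZMod p) (Fin 3 → ZMod p))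
    have h2 := Projectivization.card_of_finrank (ZMod p) (Fin 3 → ZMod p) (n := 3) (by simp)
    rw [Nat.card_eq_fintype_card, h1] at h2
    simp [Finset.sum_range_succ] at h2
    set q := ProjectivePlane.order (ℙ (ZMod p) (Fin 3 → ZMod p)) (ℙ (ZMod p) (Fin 3 → ZMod p))
    rcases lt_trichotomy q p with h | h | h
    · nlinarith
    · exact h
    · nlinarith
  have h1 := hc (ℙ (ZMod p) (Fin 3 → ZMod p)) (ℙ (ZMod p) (Fin 3 → ZMod p))
  have h2 := strength_bound (P := ℙ (ZMod p) (Fin 3 → ZMod p)) (L := ℙ (ZMod p) (Fin 3 → ZMod p))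
  rw [hord] at h1 h2
  set s := dualStrength (ℙ (ZMod p) (Fin 3 → ZMod p)) (ℙ (ZMod p) (Fin 3 → ZMod p))
  have h3 : (p : ℝ) ^ 3 ≤ 128 * (s : ℝ) ^ 2 := by exact_mod_cast h2
  have hp0 : (0 : ℝ) < p := by exact_mod_cast hpp.pos
  have h4 : (s : ℝ) ^ 2 ≤ (c * p) ^ 2 := pow_le_pow_left₀ (by positivity) h1 2
  have h5 : (p : ℝ) ^ 2 * p ≤ (p : ℝ) ^ 2 * (128 * c ^ 2) := by nlinarith
  have h6 : (p : ℝ) ≤ 128 * c ^ 2 := le_of_mul_le_mul_left h5 (by positivity)
  have h7 : (N : ℝ) ≤ p := by exact_mod_cast hp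
  linarith

end Pool.Agent.Results.MP_aa9284_co.NotLinear
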